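import Pool.Agent.Helper34.CA.CountC
import Pool.Agent.Helper34.CA.StG

/-!
The count of project CA for a general function `f` with `f p ∣ p - 1`, with a lower bound for the
prime factors.
-/

set_option autoImplicit false

open Finset

namespace Pool.Agent.Helper34.CA2

open Pool.Agent.Helper34.CA
open Pool.Agent.Helper34.CA.CountCAux

/-- The products are numbers `n` with `f p ∣ n - 1` and `U < p` for all primes `p ∣ n`. -/
def CountV : Prop :=
  ∀ (f : ℕ → ℕ), (∀ p : ℕ, p.Prime → f p ∣ p - 1) →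
  ∀ (U x y w : ℝ) (M J X : ℕ) (A : Fin J → Finset ℕ) (r : Fin J → ℕ) (a : ℕ)
    (T : Finset (Fin 4 → ℕ)) (c : (Fin 4 → ℕ) → ℕ), 3 ≤ x → 1 ≤ y → y < w →
    U ≤ x ^ (1 / 2 : ℝ) → 0 < M →
    (∀ i, ∀ n ∈ A i, 1 ≤ n ∧ n ≤ X ∧ Squarefree n ∧ n ≡ r i [MOD M] ∧
      ∀ p : ℕ, p.Prime → p ∣ n → f p ∣ M ∧ U < (p : ℝ) ∧ (p : ℝ) ≤ x ^ (1 / 2 : ℝ)) →
    (∀ i j, i ≠ j → ∀ n ∈ A i, ∀ n' ∈ A j, Nat.Coprime n n') →
    (∏ i, r i) * a ≡ 1 [MOD M] →
    (∀ t ∈ T, (∀ i, NiceP x y w M (t i)) ∧ ∏ i, t i ≡ a [MOD M] ∧ Adm w t ∧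
      c t * ∏ i, t i ≡ 1 [MOD DD w t]) →
    ∀ S : Finset ℕ, (∀ n, n ∈ S ↔ IsG f U n ∧ (n : ℝ) ≤ (X : ℝ) ^ J * x ^ 4) →
    ((∑ t ∈ T, ((Fintype.piFinset A).filter (fun v => ∏ i, v i ≡ c t [MOD DD w t])).card : ℕ) : ℝ)
      ≤ 24 * S.card

theorem countV : CountV := by
  classical
  intro f hf U x y w M J X A r a T c hx hy hyw hyx hM hA hcop hra hT S hS
  set V : (Fin 4 → ℕ) → Finset (Fin J → ℕ) :=
    fun t => (Fintype.piFinset A).filter (fun v => ∏ i, v i ≡ c t [MOD DD w t]) with hVdef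
  set F : (Σ _ : Fin 4 → ℕ, Fin J → ℕ) → ℕ := fun p => (∏ i, p.2 i) * ∏ i, p.1 i with hFdef
  have hx0 : (0 : ℝ) ≤ x := by linarith
  -- properties of the elements
  have hVp : ∀ v : Fin J → ℕ, (∀ i, v i ∈ A i) → ∀ p : ℕ, p.Prime → p ∣ ∏ i, v i →
      f p ∣ M ∧ U < (p : ℝ) ∧ (p : ℝ) ≤ x ^ (1 / 2 : ℝ) := by
    intro v hv p hp hpd
    obtain ⟨j, -, hj⟩ := (Nat.Prime.prime hp).exists_mem_finset_dvd hpd
    exact (hA j (v j) (hv j)).2.2.2.2 p hp hj
  have hmem : ∀ p ∈ T.sigma V, F p ∈ S := by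
    rintro ⟨t, v⟩ hp
    rw [mem_sigma] at hp
    obtain ⟨htT, hvV⟩ := hp
    simp only [hVdef, mem_filter, Fintype.mem_piFinset] at hvV htT
    obtain ⟨hv, hvc⟩ := hvV
    obtain ⟨hN, hta, hadm, hct⟩ := hT t htT
    have htp : ∀ i, (t i).Prime := fun i => (hN i).1
    have hv1 : ∀ i, 1 ≤ v i := fun i => (hA i (v i) (hv i)).1
    have hvpos : 0 < ∏ i, v i := Finset.prod_pos (fun i _ => hv1 i)
    have htpos : 0 < ∏ i, t i := Finset.prod_pos (fun i _ => (htp i).pos)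
    have hmpos : 0 < (∏ i, v i) * ∏ i, t i := Nat.mul_pos hvpos htpos
    have htd : ∀ i, t i ∣ (∏ i, v i) * ∏ i, t i := fun i =>
      Dvd.dvd.mul_left (Finset.dvd_prod_of_mem t (mem_univ i)) _
    -- congruences
    have hvr : ∏ i, v i ≡ ∏ i, r i [MOD M] := by
      have : ∀ s : Finset (Fin J), ∏ i ∈ s, v i ≡ ∏ i ∈ s, r i [MOD M] := by
        intro s
        induction s using Finset.induction_on with
        | empty => simp [Nat.ModEq]
        | insert b s hb ih =>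
          rw [Finset.prod_insert hb, Finset.prod_insert hb]
          exact Nat.ModEq.mul (hA b (v b) (hv b)).2.2.2.1 ih
      exact this univ
    have hmM : (∏ i, v i) * ∏ i, t i ≡ 1 [MOD M] := (Nat.ModEq.mul hvr hta).trans hra
    have hmD : (∏ i, v i) * ∏ i, t i ≡ 1 [MOD DD w t] :=
      (Nat.ModEq.mul_right _ hvc).trans hct
    have hdM : M ∣ (∏ i, v i) * ∏ i, t i - 1 := (Nat.modEq_iff_dvd' hmpos).1 hmM.symm
    have hdD : DD w t ∣ (∏ i, v i) * ∏ i, t i - 1 := (Nat.modEq_iff_dvd' hmpos).1 hmD.symm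
    have h1m : 1 < (∏ i, v i) * ∏ i, t i :=
      lt_of_lt_of_le (htp 0).one_lt (Nat.le_of_dvd hmpos (htd 0))
    have hnp : ¬ ((∏ i, v i) * ∏ i, t i).Prime := by
      intro hpr
      have e0 := (Nat.prime_dvd_prime_iff_eq (htp 0) hpr).1 (htd 0)
      have e1 := (Nat.prime_dvd_prime_iff_eq (htp 1) hpr).1 (htd 1)
      exact (hadm.1 0 1 (by decide)).1 (e0.trans e1.symm)
    have hsq : Squarefree ((∏ i, v i) * ∏ i, t i) := by
      have hc : Nat.Coprime (∏ i, v i) (∏ i, t i) := by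
        apply Nat.Coprime.prod_right
        intro i _
        rw [Nat.coprime_comm, (htp i).coprime_iff_not_dvd]
        intro hd
        exact absurd (hVp v hv _ (htp i) hd).2.2 (not_le.2 (hN i).2.1)
      rw [Nat.squarefree_mul hc]
      refine ⟨sqf_prod _ _ (fun i _ => (hA i (v i) (hv i)).2.2.1)
        (fun i _ j _ hij => hcop i j hij _ (hv i) _ (hv j)),
        sqf_prod _ _ (fun i _ => (htp i).squarefree)
        (fun i _ j _ hij => (Nat.coprime_primes (htp i) (htp j)).2 (hadm.1 i j hij).1)⟩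
    have hdiv : ∀ p : ℕ, p.Prime → p ∣ (∏ i, v i) * ∏ i, t i →
        f p ∣ (∏ i, v i) * ∏ i, t i - 1 ∧ U < (p : ℝ) := by
      intro p hp hpd
      rcases hp.dvd_mul.1 hpd with h2 | h2
      · exact ⟨(hVp v hv p hp h2).1.trans hdM, (hVp v hv p hp h2).2.1⟩
      · obtain ⟨i, -, hi⟩ := (Nat.Prime.prime hp).exists_mem_finset_dvd h2
        rw [(Nat.prime_dvd_prime_iff_eq hp (htp i)).1 hi]
        refine ⟨(hf _ (htp i)).trans ?_, hyx.trans_lt (hN i).2.1⟩
        rw [Nat.dvd_iff_prime_pow_dvd_dvd]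
        intro q k hq hqk
        rcases Nat.eq_zero_or_pos k with hk | hk
        · rw [hk, pow_zero]
          exact one_dvd _
        · have hqd : q ∣ t i - 1 := (dvd_pow_self q hk.ne').trans hqk
          have ht1 : t i - 1 ≠ 0 := by
            have := (htp i).one_lt
            omega
          rcases (hN i).2.2.2.1 q hq hqd with h3 | h3
          · exact ((hN i).2.2.2.2 q k hq h3 hqk).trans hdM
          · refine (pow_dvd_rgh w (t i - 1) q k ht1 hq h3 hk.ne' hqk).trans (Dvd.dvd.trans ?_ hdD)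
            exact Finset.dvd_prod_of_mem (fun i => rgh w (t i - 1)) (mem_univ i)
    have hle : (((∏ i, v i) * ∏ i, t i : ℕ) : ℝ) ≤ (X : ℝ) ^ J * x ^ 4 := by
      rw [Nat.cast_mul, Nat.cast_prod, Nat.cast_prod]
      have e1 : ∏ i, (v i : ℝ) ≤ (X : ℝ) ^ J := by
        have := Finset.prod_le_prod (s := (univ : Finset (Fin J))) (f := fun i => (v i : ℝ))
          (g := fun _ => (X : ℝ)) (fun i _ => Nat.cast_nonneg _)
          (fun i _ => by exact_mod_cast (hA i (v i) (hv i)).2.1)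
        simpa using this
      have e2 : ∏ i, (t i : ℝ) ≤ x ^ 4 := by
        have := Finset.prod_le_prod (s := (univ : Finset (Fin 4))) (f := fun i => (t i : ℝ))
          (g := fun _ => x) (fun i _ => Nat.cast_nonneg _) (fun i _ => (hN i).2.2.1)
        simpa using this
      exact mul_le_mul e1 e2 (Finset.prod_nonneg (fun i _ => Nat.cast_nonneg _))
        (pow_nonneg (Nat.cast_nonneg _) _)
    exact (hS _).2 ⟨⟨h1m, hnp, hsq, hdiv⟩, hle⟩
  have hfib : ∀ n : ℕ, ((T.sigma V).filter (fun p => F p = n)).card ≤ 24 := by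
    intro n
    rcases ((T.sigma V).filter (fun p => F p = n)).eq_empty_or_nonempty with he | ⟨⟨t0, v0⟩, h0⟩
    · rw [he]
      simp
    · rw [mem_filter, mem_sigma] at h0
      obtain ⟨⟨ht0T, hv0V⟩, hF0⟩ := h0
      simp only [hVdef, mem_filter, Fintype.mem_piFinset] at hv0V ht0T
      obtain ⟨hv0, -⟩ := hv0V
      obtain ⟨hN0, -, hadm0, -⟩ := hT t0 ht0T
      have hsub : (T.sigma V).filter (fun p => F p = n) ⊆
          (univ : Finset (Equiv.Perm (Fin 4))).image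
            (fun σ : Equiv.Perm (Fin 4) => (⟨t0 ∘ ⇑σ, v0⟩ : Σ _ : Fin 4 → ℕ, Fin J → ℕ)) := by
        rintro ⟨t, v⟩ hp
        rw [mem_filter, mem_sigma] at hp
        obtain ⟨⟨htT, hvV⟩, hF⟩ := hp
        simp only [hVdef, mem_filter, Fintype.mem_piFinset] at hvV htT
        obtain ⟨hv, -⟩ := hvV
        obtain ⟨hN, -, hadm, -⟩ := hT t htT
        simp only [hFdef] at hF hF0
        have heq : (∏ i, v i) * ∏ i, t i = (∏ i, v0 i) * ∏ i, t0 i := by
          rw [hF, hF0]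
        obtain ⟨σ, hσ⟩ := exists_perm (x ^ (1 / 2 : ℝ)) t t0 _ _ (fun i => (hN i).1)
          (fun i => (hN0 i).1) (fun i => (hN i).2.1)
          (fun p hp hpd => (hVp v0 hv0 p hp hpd).2.2) (fun i j hij => (hadm.1 i j hij).1) heq
        have hpt : ∏ i, t i = ∏ i, t0 i := by
          rw [hσ]
          exact Equiv.prod_comp σ t0
        have ht0pos : 0 < ∏ i, t0 i := Finset.prod_pos (fun i _ => (hN0 i).1.pos)
        have hpv : ∏ i, v i = ∏ i, v0 i := by
          rw [hpt] at heq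
          exact Nat.eq_of_mul_eq_mul_right ht0pos heq
        have hvv : v = v0 := eq_of_prod_eq A hcop v v0 hv hv0 hpv
        rw [mem_image]
        refine ⟨σ, mem_univ _, ?_⟩
        rw [hvv, hσ]
      refine (Finset.card_le_card hsub).trans (Finset.card_image_le.trans ?_)
      rw [Finset.card_univ, Fintype.card_perm, Fintype.card_fin]
      decide
  have hcard : (T.sigma V).card ≤ 24 * S.card :=
    Finset.card_le_mul_card_image_of_maps_to hmem 24 (fun n _ => hfib n)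
  rw [Finset.card_sigma] at hcard
  exact_mod_cast hcard

end Pool.Agent.Helper34.CA2
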