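import Pool.Agent.Helper34.CA2.MainD2
import Pool.Agent.Helper34.CA.MainE

/-!
# Project CA: the main theorem with large prime factors
-/

set_option autoImplicit false

open Finset Filter Topology

namespace Pool.Agent.Helper34.CA2

open Pool.Agent.Helper18.BV
open Pool.Agent.Helper34.CA hiding core core1 step loc

/-- The local form of the main theorem, `z = l ^ β`, `N = exp ((K + 4) l)`. -/
theorem loc (h1 : QuadLB) (h2 : PhiTail) (h3 : Equi) (h4 : SwapT) (h5 : BadT) (h6 : Pop)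
    (h7 : CountV) {θ ε : ℝ} (hθ : 0 < θ) (hθ2 : θ < 1 / 2) (hε : 0 < ε) :
    ∃ δ₀ K : ℝ, 0 < δ₀ ∧ 0 < K ∧ ∀ δ : ℝ, 0 < δ → δ ≤ δ₀ → ∀ β : ℝ, β = (1 - δ / 4) / θ →
      ∀ᶠ l : ℝ in atTop, ∀ f : ℕ → ℕ, (∀ p : ℕ, p.Prime → f p ∣ p - 1) →
      ∀ (U : ℝ) (P0 : Finset ℕ),
      (∀ p ∈ P0, p.Prime ∧ (p : ℝ) ≤ l ^ β ∧
        ∀ q : ℕ, q.Prime → q ∣ f p → (q : ℝ) ≤ (l ^ β) ^ θ) → (∀ p ∈ P0, U < (p : ℝ)) →
      (l ^ β) ^ (1 - δ) ≤ (P0.card : ℝ) → ∀ S : Finset ℕ,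
      (∀ n, n ∈ S ↔ IsG f U n ∧ (n : ℝ) ≤ Real.exp ((K + 4) * l)) →
      Real.exp ((1 - θ - ε) * ((K + 4) * l)) ≤ S.card := by
  obtain ⟨K, hKdef⟩ : ∃ K : ℝ, K = max 64 (10 / ε) := ⟨_, rfl⟩
  have hK : 64 ≤ K := by rw [hKdef]; exact le_max_left _ _
  have hKε : 10 ≤ ε * K := by
    have : 10 / ε ≤ K := by rw [hKdef]; exact le_max_right _ _
    rw [div_le_iff₀ hε] at this
    linarith
  obtain ⟨CT, _, hCT⟩ := h2
  refine ⟨min (1 / 100) (min ((1 / 2 - θ) / 8) (ε / 40)), K, ?_, by linarith, ?_⟩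
  · refine lt_min (by norm_num) (lt_min ?_ ?_)
    · linarith
    · linarith
  intro δ hδ hδdef β hβ'
  have hδ2 : δ ≤ 1 / 100 := hδdef.trans (min_le_left _ _)
  have hδθ : 8 * δ ≤ 1 / 2 - θ := by
    have : δ ≤ (1 / 2 - θ) / 8 := hδdef.trans ((min_le_right _ _).trans (min_le_left _ _))
    linarith
  have hδε : 40 * δ ≤ ε := by
    have : δ ≤ ε / 40 := hδdef.trans ((min_le_right _ _).trans (min_le_right _ _))
    linarith
  obtain ⟨e, he⟩ : ∃ e : ℝ, e = δ / 16 := ⟨_, rfl⟩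
  have hβ : β = (1 - 4 * e) / θ := by rw [hβ', he]; ring
  have he0 : 0 < e := by rw [he]; positivity
  have he1 : e ≤ 1 / 1600 := by rw [he]; linarith
  obtain ⟨b0, hQ⟩ := quad_ev h1 (κ := 1 - 4 * e) (κ₁ := 1 - 3 * e) (κ₂ := 1 - e)
    (by linarith) (by linarith) (by linarith) (by linarith)
  filter_upwards [atoms (b0 := b0) (CT := CT) hθ hθ2 hδ hδ2 he hβ hK, hQ] with l hat hQl
  intro f hf U P0 hP0 hU hP0c S hS
  have l0 : 0 < l := by linarith [hat.big]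
  have key := step h4 h5 h3 h6 h7 hCT hf hθ hδ hδ2 hδθ he hβ hK hat hP0 hU hP0c hQl hS
  refine le_trans (Real.exp_le_exp.2 ?_) key
  have e1 := hat.a15
  have e2 : (1 - θ - ε) * ((K + 4) * l) = ((1 - θ - ε) * (K + 4)) * l := by ring
  have e3 : (1 - θ - 5 * δ) * (K * l) = ((1 - θ - 5 * δ) * K) * l := by ring
  have e4 : (1 - θ - ε) * (K + 4) + 4 ≤ (1 - θ - 5 * δ) * K := by
    have e5 : 40 * δ * K ≤ ε * K := mul_le_mul_of_nonneg_right hδε (by linarith)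
    nlinarith
  have e6 : ((1 - θ - ε) * (K + 4) + 4) * l ≤ ((1 - θ - 5 * δ) * K) * l :=
    mul_le_mul_of_nonneg_right e4 l0.le
  rw [e2, e3]
  linarith

/-- Carmichael numbers without prime factors up to `(log N) ^ γ`, `γ < 1 / θ`. -/
def MainV : Prop :=
  ∀ θ : ℝ, 0 < θ → θ < 1 / 2 → Smooth θ → ∀ α γ : ℝ, α < 1 - θ → γ < 1 / θ →
    ∃ N₀ : ℕ, ∀ N : ℕ, N₀ ≤ N → ∀ S : Finset ℕ,
      (∀ n, n ∈ S ↔ n ≤ N ∧ IsCarm n ∧ ∀ p : ℕ, p.Prime → p ∣ n → Real.log N ^ γ < (p : ℝ)) →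
      (N : ℝ) ^ α ≤ (S.card : ℝ)

theorem mainV (h1 : QuadLB) (h2 : PhiTail) (h3 : Equi) (h4 : SwapT) (h5 : BadT) (h6 : Pop)
    (h7 : CountV) (hk : Kors) : MainV := by
  classical
  intro θ hθ hθ2 hSm α γ hα hγ
  obtain ⟨ε, hε⟩ : ∃ ε : ℝ, ε = 1 - θ - α := ⟨_, rfl⟩
  have hε0 : 0 < ε := by rw [hε]; linarith
  obtain ⟨δ₀, K, hδ₀, hK, hloc⟩ := loc h1 h2 h3 h4 h5 h6 h7 hθ hθ2 hε0
  have hγθ : γ * θ < 1 := by rwa [lt_div_iff₀ hθ] at hγ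
  obtain ⟨δ, hδdef⟩ : ∃ δ : ℝ, δ = min δ₀ (min (1 / 4) ((1 - γ * θ) / 4)) := ⟨_, rfl⟩
  have hδ : 0 < δ := by
    rw [hδdef]
    exact lt_min hδ₀ (lt_min (by norm_num) (by linarith))
  have hδ1 : δ ≤ δ₀ := by rw [hδdef]; exact min_le_left _ _
  have hδ2 : δ ≤ 1 / 4 := by
    rw [hδdef]; exact (min_le_right _ _).trans (min_le_left _ _)
  have hδ3 : 4 * δ ≤ 1 - γ * θ := by
    have : δ ≤ (1 - γ * θ) / 4 := by
      rw [hδdef]; exact (min_le_right _ _).trans (min_le_right _ _)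
    linarith
  obtain ⟨β, hβ⟩ : ∃ β : ℝ, β = (1 - δ / 4) / θ := ⟨_, rfl⟩
  have hβθ : β * θ = 1 - δ / 4 := by rw [hβ]; field_simp
  have hβ0 : 0 < β := by
    rw [hβ]
    exact div_pos (by linarith) hθ
  have hβγ : γ < β * (1 - 2 * δ) := by
    have e1 : γ * θ < (β * (1 - 2 * δ)) * θ := by
      have e2 : (β * (1 - 2 * δ)) * θ = (β * θ) * (1 - 2 * δ) := by ring
      rw [e2, hβθ]
      nlinarith
    exact lt_of_mul_lt_mul_right e1 hθ.le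
  obtain ⟨z₀, hz₀⟩ := hSm (δ / 2) (by linarith)
  have t1 : Tendsto (fun l : ℝ => l ^ β) atTop atTop := tendsto_rpow_atTop hβ0
  have hev : ∀ᶠ l : ℝ in atTop, ∀ S : Finset ℕ,
      (∀ n, n ∈ S ↔ n ≤ ⌊Real.exp ((K + 4) * l)⌋₊ ∧ IsCarm n ∧
        ∀ p : ℕ, p.Prime → p ∣ n → ((K + 4) * l) ^ γ < (p : ℝ)) →
      Real.exp (α * ((K + 4) * l)) ≤ S.card := by
    have e0 : ∀ᶠ l : ℝ in atTop, ((K + 4) * l) ^ γ ≤ (l ^ β) ^ (1 - 2 * δ) := by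
      filter_upwards [ev_pow ((K + 4) ^ γ) hβγ, eventually_gt_atTop (0 : ℝ)] with l b1 b2
      rw [Real.mul_rpow (by linarith) b2.le, ← Real.rpow_mul b2.le]
      exact b1
    have e1 : ∀ᶠ z : ℝ in atTop, 2 * z ^ (1 - 2 * δ) ≤ z ^ (1 - δ / 2) :=
      ev_pow 2 (by linarith)
    have e2 : ∀ᶠ z : ℝ in atTop, 2 * z ^ (1 - δ) ≤ z ^ (1 - δ / 2) := ev_pow 2 (by linarith)
    filter_upwards [hloc δ hδ hδ1 β hβ, t1.eventually_ge_atTop z₀, e0, t1.eventually e1,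
      t1.eventually e2, t1.eventually_gt_atTop 0] with l b1 b2 b3 b4 b5 b6
    intro S hS
    obtain ⟨z, hz⟩ : ∃ z : ℝ, z = l ^ β := ⟨_, rfl⟩
    rw [← hz] at b1 b2 b3 b4 b5 b6
    obtain ⟨P1, hP1⟩ : ∃ P1 : Finset ℕ, P1 = (Icc 1 ⌊z⌋₊).filter (fun p : ℕ => p.Prime ∧
      (p : ℝ) ≤ z ∧ ∀ q : ℕ, q.Prime → q ∣ p - 1 → (q : ℝ) ≤ z ^ θ) := ⟨_, rfl⟩
    have hP1m : ∀ p, p ∈ P1 ↔ (p.Prime ∧ (p : ℝ) ≤ z ∧
        ∀ q : ℕ, q.Prime → q ∣ p - 1 → (q : ℝ) ≤ z ^ θ) := by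
      intro p
      rw [hP1, Finset.mem_filter, Finset.mem_Icc]
      constructor
      · exact fun h => h.2
      · exact fun h => ⟨⟨h.1.one_le, Nat.le_floor h.2.1⟩, h⟩
    have hP1c := hz₀ z b2 P1 hP1m
    obtain ⟨P0, hP0⟩ : ∃ P0 : Finset ℕ,
      P0 = P1.filter (fun p : ℕ => z ^ (1 - 2 * δ) < (p : ℝ)) := ⟨_, rfl⟩
    have hP0c : z ^ (1 - δ) ≤ (P0.card : ℝ) := by
      have c1 := Finset.card_filter_add_card_filter_not (s := P1)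
        (fun p : ℕ => z ^ (1 - 2 * δ) < (p : ℝ))
      rw [← hP0] at c1
      have c2 : (P1.filter (fun p : ℕ => ¬ z ^ (1 - 2 * δ) < (p : ℝ))).card ≤
          (Icc 1 ⌊z ^ (1 - 2 * δ)⌋₊).card := by
        refine Finset.card_le_card fun p hp => ?_
        rw [Finset.mem_filter] at hp
        rw [Finset.mem_Icc]
        exact ⟨((hP1m p).1 hp.1).1.one_le, Nat.le_floor (not_lt.1 hp.2)⟩
      rw [Nat.card_Icc] at c2
      have c3 : P1.card ≤ P0.card + ⌊z ^ (1 - 2 * δ)⌋₊ := by omega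
      have c4 : (P1.card : ℝ) ≤ P0.card + ⌊z ^ (1 - 2 * δ)⌋₊ := by exact_mod_cast c3
      have c5 : (⌊z ^ (1 - 2 * δ)⌋₊ : ℝ) ≤ z ^ (1 - 2 * δ) :=
        Nat.floor_le (Real.rpow_nonneg b6.le _)
      linarith
    obtain ⟨U, hU⟩ : ∃ U : ℝ, U = z ^ (1 - 2 * δ) := ⟨_, rfl⟩
    have key := b1 (fun p => p - 1) (fun p _ => dvd_refl _) U P0
      (fun p hp => (hP1m p).1 (by rw [hP0] at hp; exact (Finset.mem_filter.1 hp).1))
      (fun p hp => by rw [hU]; rw [hP0] at hp; exact (Finset.mem_filter.1 hp).2) hP0c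
      (S.filter (fun n => IsG (fun p => p - 1) U n)) (by
        intro n
        rw [Finset.mem_filter, hS, Nat.le_floor_iff (Real.exp_pos _).le]
        constructor
        · exact fun h => ⟨h.2, h.1.1⟩
        · rintro ⟨⟨c1, c2, c3, c4⟩, h2⟩
          refine ⟨⟨h2, hk n c1 c2 c3 fun p hp hpn => (c4 p hp hpn).1, fun p hp hpn => ?_⟩,
            ⟨c1, c2, c3, c4⟩⟩
          have := (c4 p hp hpn).2
          rw [hU] at this
          exact lt_of_le_of_lt b3 this)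
    have e3 : 1 - θ - ε = α := by rw [hε]; ring
    rw [e3] at key
    exact key.trans (by exact_mod_cast Finset.card_filter_le _ _)
  have t3 : Tendsto (fun N : ℕ => Real.log N / (K + 4)) atTop atTop :=
    (Real.tendsto_log_atTop.comp tendsto_natCast_atTop_atTop).atTop_div_const (by linarith)
  obtain ⟨N₀, hN₀⟩ := eventually_atTop.1 ((t3.eventually hev).and (eventually_ge_atTop 1))
  refine ⟨N₀, fun N hN S hS => ?_⟩
  obtain ⟨b1, b2⟩ := hN₀ N hN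
  have hN0 : (0 : ℝ) < N := by exact_mod_cast b2
  have e1 : (K + 4) * (Real.log N / (K + 4)) = Real.log N := by
    field_simp
  have e2 := b1 S (by
    intro n
    rw [hS, e1, Real.exp_log hN0, Nat.floor_natCast])
  rw [e1] at e2
  rw [exp_of_log hN0, mul_comm]
  exact e2

end Pool.Agent.Helper34.CA2
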