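import Pool.Agent.Helper34.CA.Final
import Pool.Agent.Helper34.CA2.MainE2

/-!
# Project CA: the main theorem with large prime factors, closed form
-/

set_option autoImplicit false

namespace Pool.Agent.Helper34.CA2

open Pool.Agent.Helper34.CA

theorem main_v : MainV := mainV h_quad h_tail equi swapT badT pop countV kors

/-- The main theorem for `θ > θ₀`. -/
theorem lower {θ₀ : ℝ} (h0 : 0 < θ₀) (h1 : θ₀ < 1 / 2)
    (hS : ∀ θ : ℝ, θ₀ < θ → θ < 1 / 2 → Smooth θ) {α γ : ℝ} (hα : α < 1 - θ₀)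
    (hγ : γ < 1 / θ₀) :
    ∃ N₀ : ℕ, ∀ N : ℕ, N₀ ≤ N → ∀ S : Finset ℕ,
      (∀ n, n ∈ S ↔ n ≤ N ∧ IsCarm n ∧ ∀ p : ℕ, p.Prime → p ∣ n → Real.log N ^ γ < (p : ℝ)) →
      (N : ℝ) ^ α ≤ (S.card : ℝ) := by
  have hc : Filter.Tendsto (fun θ : ℝ => 1 / θ) (nhds θ₀) (nhds (1 / θ₀)) :=
    tendsto_const_nhds.div Filter.tendsto_id h0.ne'
  have e1 : ∀ᶠ θ : ℝ in nhdsWithin θ₀ (Set.Ioi θ₀), γ < 1 / θ :=
    (hc.eventually_const_lt hγ).filter_mono nhdsWithin_le_nhds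
  have e2 : ∀ᶠ θ : ℝ in nhdsWithin θ₀ (Set.Ioi θ₀), α < 1 - θ := by
    have : Filter.Tendsto (fun θ : ℝ => 1 - θ) (nhds θ₀) (nhds (1 - θ₀)) :=
      tendsto_const_nhds.sub Filter.tendsto_id
    exact (this.eventually_const_lt hα).filter_mono nhdsWithin_le_nhds
  have e3 : ∀ᶠ θ : ℝ in nhdsWithin θ₀ (Set.Ioi θ₀), θ < 1 / 2 :=
    (eventually_lt_nhds h1).filter_mono nhdsWithin_le_nhds
  have e4 : ∀ᶠ θ : ℝ in nhdsWithin θ₀ (Set.Ioi θ₀), θ₀ < θ := self_mem_nhdsWithin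
  obtain ⟨θ, b1, b2, b3, b4⟩ := (e1.and (e2.and (e3.and e4))).exists
  exact main_v θ (h0.trans b4) b3 (hS θ b4 b3) α γ b2 b1

end Pool.Agent.Helper34.CA2
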