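import Pool.Agent.Helper34.CA.MainB
import Pool.Agent.Helper34.CA2.CountV

/-!
# Project CA: the count for given parameters
-/

set_option autoImplicit false

open Finset Filter Topology

namespace Pool.Agent.Helper34.CA2

open Pool.Agent.Helper18.BV
open Pool.Agent.Helper34.CA

/-- The count for given sets `A i` with `ξ (∏ r i) = 1`. -/
theorem core1 (h4 : SwapT) (h5 : BadT) (h3 : Equi) (h7 : CountV) {CT : ℝ} (h2 : PhiTailC CT)
    {f : ℕ → ℕ} (hf : ∀ p : ℕ, p.Prime → f p ∣ p - 1)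
    {U x y w δ a μ : ℝ} {M J h z X : ℕ} {A : Fin J → Finset ℕ} {r : Fin J → ℕ}
    (hU : U ≤ x ^ (1 / 2 : ℝ)) (hx : 3 ≤ x) (hy : 1 ≤ y) (hyw : y < w) (hwx : w ≤ x ^ (1 / 2 : ℝ)) (hM : 0 < M)
    (hzx : (z : ℝ) ≤ x ^ (1 / 2 : ℝ)) (hzw : (z : ℝ) ≤ w) (hδ : 0 < δ) (hδ' : δ ≤ 1 / 8)
    (hX2 : 2 ≤ X) (hXw : (X : ℝ) ≤ w ^ δ) (hJh : (J : ℝ) ^ h ≤ (X : ℝ) ^ δ)
    (hx8 : x ^ 8 ≤ (X : ℝ) ^ (J / 2)) (haX : (X : ℝ) ^ (1 / 2 + 3 * δ) ≤ a)
    (hA : ∀ i, ∀ n ∈ A i, 1 ≤ n ∧ n ≤ X ∧ Squarefree n ∧ n.primeFactors.card = h ∧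
      (∀ p : ℕ, p.Prime → p ∣ n → f p ∣ M ∧ p ≤ z ∧ U < (p : ℝ)) ∧ n ≡ r i [MOD M])
    (hAd : ∀ i j, i ≠ j → ∀ n ∈ A i, ∀ n' ∈ A j, Nat.Coprime n n')
    (hr : ∀ i, Nat.Coprime (r i) M) (hAa : ∀ i, a ≤ (A i).card)
    {ξ : DirichletCharacter ℂ M} (hξr : ξ ((∏ i, r i : ℕ) : ZMod M) = 1)
    (hQ : ∀ a : ℕ, ξ (a : ZMod M) = 1 → ∀ T : Finset (Fin 4 → ℕ),
          (∀ t, t ∈ T ↔ (∀ i, NiceP x y w M (t i)) ∧ ∏ i, t i ≡ a [MOD M]) →
          2 * μ ≤ ∑ t ∈ T, ∏ i, (1 / (t i : ℝ)))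
    (hbad : 100 * (1 + Real.log x) ^ 4 / w ≤ μ)
    (herr : (M.divisors.card * (1 + Real.log x)) ^ 4 * (65536 : ℝ) ^ (Real.log x / Real.log w) *
      (CT * Real.log x * w ^ (-(3 * δ))) ≤ μ / 2)
    {S : Finset ℕ} (hS : ∀ n, n ∈ S ↔ IsG f U n ∧ (n : ℝ) ≤ (X : ℝ) ^ J * x ^ 4) :
    a ^ J * μ / 48 ≤ S.card := by
  classical
  have hX0 : (0 : ℝ) < X := by exact_mod_cast (by omega : 0 < X)
  have ha0 : 0 < a := (Real.rpow_pos_of_pos hX0 _).trans_le haX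
  have hw1 : 1 < w := lt_of_le_of_lt hy hyw
  have hw0 : 0 < w := by linarith
  have hlx : 0 ≤ Real.log x := Real.log_nonneg (by linarith)
  have hne : ∀ i, (A i).Nonempty := by
    intro i
    rw [← Finset.card_pos]
    have : (0 : ℝ) < ((A i).card : ℝ) := ha0.trans_le (hAa i)
    exact_mod_cast this
  -- the class
  have hrM : Nat.Coprime (∏ i, r i) M := Nat.Coprime.prod_left fun i _ => hr i
  obtain ⟨a₀, ha₀, ha₀M⟩ := exists_inv hM hrM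
  have hξa : ξ (a₀ : ZMod M) = 1 := by
    have e1 : ((a₀ * ∏ i, r i : ℕ) : ZMod M) = 1 := by
      have := (ZMod.natCast_eq_natCast_iff _ _ _).2 ha₀
      rw [this, Nat.cast_one]
    have e2 : ξ ((a₀ * ∏ i, r i : ℕ) : ZMod M) = 1 := by rw [e1, map_one]
    rw [Nat.cast_mul, map_mul, hξr, mul_one] at e2
    exact e2
  -- the quadruples
  set T0 : Finset (Fin 4 → ℕ) := (Fintype.piFinset (fun _ : Fin 4 => Icc 1 ⌊x⌋₊)).filter
    (fun t => (∀ i, NiceP x y w M (t i)) ∧ ∏ i, t i ≡ a₀ [MOD M]) with hT0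
  have hT0m : ∀ t, t ∈ T0 ↔ (∀ i, NiceP x y w M (t i)) ∧ ∏ i, t i ≡ a₀ [MOD M] := by
    intro t
    rw [hT0, Finset.mem_filter, Fintype.mem_piFinset]
    constructor
    · exact fun h => h.2
    · intro h
      refine ⟨fun i => ?_, h⟩
      rw [Finset.mem_Icc]
      exact ⟨(h.1 i).1.one_le, Nat.le_floor (h.1 i).2.2.1⟩
  have hT0s := hQ a₀ hξa T0 hT0m
  set T : Finset (Fin 4 → ℕ) := T0.filter (fun t => Adm w t) with hT
  have hTm : ∀ t ∈ T, (∀ i, NiceP x y w M (t i)) ∧ Adm w t := by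
    intro t ht
    rw [hT, Finset.mem_filter, hT0m] at ht
    exact ⟨ht.1.1, ht.2⟩
  have hTm' : ∀ t ∈ T, ∏ i, t i ≡ a₀ [MOD M] := by
    intro t ht
    rw [hT, Finset.mem_filter, hT0m] at ht
    exact ht.1.2
  have hTs : μ ≤ ∑ t ∈ T, ∏ i, (1 / (t i : ℝ)) := by
    have e1 := h5 x y w M hx hy hyw hwx hM (T0.filter (fun t => ¬ Adm w t)) (by
      intro t ht
      rw [Finset.mem_filter, hT0m] at ht
      exact ⟨ht.1.1, ht.2⟩)
    have e2 := Finset.sum_filter_add_sum_filter_not T0 (fun t => Adm w t)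
      (fun t => ∏ i, (1 / (t i : ℝ)))
    rw [← hT] at e2
    linarith
  -- inverses modulo `D t`
  have hcls : ∀ t : Fin 4 → ℕ, ∃ c : ℕ, t ∈ T → c * ∏ i, t i ≡ 1 [MOD DD w t] ∧
      Nat.Coprime c (DD w t) := by
    intro t
    by_cases ht : t ∈ T
    · obtain ⟨c, hc⟩ := exists_inv (DD_pos w t) (hTm t ht).2.2
      exact ⟨c, fun _ => hc⟩
    · exact ⟨0, fun h => absurd h ht⟩
  choose c hc using hcls
  -- coprimality
  have hAD : ∀ t : Fin 4 → ℕ, ∀ i, ∀ n ∈ A i, Nat.Coprime n (DD w t) := by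
    intro t i n hn
    refine Nat.coprime_of_dvd fun q hq hqn hqD => ?_
    have e1 := prime_dvd_DD hq hqD
    have e2 := (((hA i n hn).2.2.2.2.1) q hq hqn).2.1
    have e3 : (q : ℝ) ≤ z := by exact_mod_cast e2
    linarith
  -- the tail
  have htail := h2 δ x w a h X J A hδ hδ' hx hw1 hX2 hXw hJh hx8 haX hAa
    (fun i n hn => ⟨(hA i n hn).1, (hA i n hn).2.1, (hA i n hn).2.2.1, (hA i n hn).2.2.2.1⟩)
  have hswap := h4 x y w M hx hy hyw hM T hTm (Phi A) (Phi_nonneg A)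
  have hsw2 : ∑ t ∈ T, (1 / ((DD w t).totient : ℝ)) *
      ∑ q ∈ (DD w t).divisors.filter (fun q => 1 < q), Phi A q ≤ μ / 2 := by
    refine hswap.trans (le_trans ?_ herr)
    refine mul_le_mul_of_nonneg_left htail ?_
    have : 0 ≤ 1 + Real.log x := by linarith
    positivity
  have hφ : ∀ t ∈ T, ∏ i, (1 / (t i : ℝ)) ≤ 1 / ((DD w t).totient : ℝ) :=
    fun t ht => one_div_prod_le fun i => ((hTm t ht).1 i).1
  have hφs : μ ≤ ∑ t ∈ T, 1 / ((DD w t).totient : ℝ) := hTs.trans (Finset.sum_le_sum hφ)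
  set PA : ℝ := ∏ i, ((A i).card : ℝ) with hPA
  have hPA0 : 0 ≤ PA := Finset.prod_nonneg fun _ _ => Nat.cast_nonneg _
  have hcount : PA * (μ / 2) ≤
      ((∑ t ∈ T, ((Fintype.piFinset A).filter
        (fun v => ∏ i, v i ≡ c t [MOD DD w t])).card : ℕ) : ℝ) := by
    have e1 : ∀ t ∈ T, PA * (1 / ((DD w t).totient : ℝ) - (1 / ((DD w t).totient : ℝ)) *
        ∑ q ∈ (DD w t).divisors.filter (fun q => 1 < q), Phi A q) ≤
        ((((Fintype.piFinset A).filter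
          (fun v => ∏ i, v i ≡ c t [MOD DD w t])).card : ℕ) : ℝ) := by
      intro t ht
      have e2 := h3 J A (DD w t) (c t) (DD_pos w t) (hc t ht).2 hne (hAD t)
      rw [abs_le] at e2
      have e3 := e2.1
      have e4 : PA * (1 / ((DD w t).totient : ℝ) - (1 / ((DD w t).totient : ℝ)) *
        ∑ q ∈ (DD w t).divisors.filter (fun q => 1 < q), Phi A q) =
        PA / (DD w t).totient - PA / (DD w t).totient *
          ∑ q ∈ (DD w t).divisors.filter (fun q => 1 < q), Phi A q := by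
        ring
      rw [e4]
      linarith
    have e5 := Finset.sum_le_sum e1
    rw [← Finset.mul_sum, Finset.sum_sub_distrib] at e5
    have e6 : PA * (μ / 2) ≤ PA * (∑ t ∈ T, 1 / ((DD w t).totient : ℝ) -
        ∑ t ∈ T, (1 / ((DD w t).totient : ℝ)) *
        ∑ q ∈ (DD w t).divisors.filter (fun q => 1 < q), Phi A q) := by
      refine mul_le_mul_of_nonneg_left ?_ hPA0
      linarith
    push_cast
    exact e6.trans e5
  have hfin := h7 f hf U x y w M J X A r a₀ T c hx hy hyw hU hM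
    (fun i n hn => by
      obtain ⟨b1, b2, b3, b4, b5, b6⟩ := hA i n hn
      refine ⟨b1, b2, b3, b6, fun p hp hpn => ⟨(b5 p hp hpn).1, (b5 p hp hpn).2.2, ?_⟩⟩
      have : (p : ℝ) ≤ z := by exact_mod_cast (b5 p hp hpn).2.1
      linarith)
    hAd (by rw [mul_comm]; exact ha₀)
    (fun t ht => ⟨(hTm t ht).1, hTm' t ht, (hTm t ht).2, (hc t ht).1⟩) S hS
  have hpow : a ^ J ≤ PA := by
    have := Finset.prod_le_prod (s := (Finset.univ : Finset (Fin J)))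
      (f := fun _ => a) (g := fun i => ((A i).card : ℝ)) (fun i _ => ha0.le) (fun i _ => hAa i)
    simpa using this
  have hμ : 0 ≤ μ := le_trans (by positivity) hbad
  have h9 : a ^ J * (μ / 2) ≤ PA * (μ / 2) := mul_le_mul_of_nonneg_right hpow (by linarith)
  linarith

/-- The count for given parameters. -/
theorem core (h4 : SwapT) (h5 : BadT) (h3 : Equi) (h6 : Pop) (h7 : CountV) {CT : ℝ}
    (h2 : PhiTailC CT) {f : ℕ → ℕ} (hf : ∀ p : ℕ, p.Prime → f p ∣ p - 1)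
    {U x y w δ a μ : ℝ} {M J h z : ℕ} {P : Finset ℕ}
    (hU : U ≤ x ^ (1 / 2 : ℝ)) (hx : 3 ≤ x) (hy : 1 ≤ y) (hyw : y < w) (hwx : w ≤ x ^ (1 / 2 : ℝ)) (hM : 0 < M)
    (hzx : (z : ℝ) ≤ x ^ (1 / 2 : ℝ)) (hzw : (z : ℝ) ≤ w) (hδ : 0 < δ) (hδ' : δ ≤ 1 / 8)
    (hJ : 2 ≤ J) (hh : 1 ≤ h) (hJh : J * h ≤ P.card)
    (hP : ∀ p ∈ P, p.Prime ∧ p ≤ z ∧ Nat.Coprime p M ∧ f p ∣ M ∧ U < (p : ℝ))
    (hX2 : 2 ≤ z ^ h) (hXw : ((z ^ h : ℕ) : ℝ) ≤ w ^ δ)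
    (hJhX : (J : ℝ) ^ h ≤ ((z ^ h : ℕ) : ℝ) ^ δ)
    (hx8 : x ^ 8 ≤ ((z ^ h : ℕ) : ℝ) ^ ((J - 1) / 2))
    (haX : ((z ^ h : ℕ) : ℝ) ^ (1 / 2 + 3 * δ) ≤ a)
    (ha : a ≤ (((P.card / J : ℕ) : ℝ) / h) ^ h / M)
    (hQ : ∃ ξ : DirichletCharacter ℂ M, ξ ^ 2 = 1 ∧
      ∀ a : ℕ, ξ (a : ZMod M) = 1 → ∀ T : Finset (Fin 4 → ℕ),
          (∀ t, t ∈ T ↔ (∀ i, NiceP x y w M (t i)) ∧ ∏ i, t i ≡ a [MOD M]) →
          2 * μ ≤ ∑ t ∈ T, ∏ i, (1 / (t i : ℝ)))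
    (hbad : 100 * (1 + Real.log x) ^ 4 / w ≤ μ)
    (herr : (M.divisors.card * (1 + Real.log x)) ^ 4 * (65536 : ℝ) ^ (Real.log x / Real.log w) *
      (CT * Real.log x * w ^ (-(3 * δ))) ≤ μ / 2)
    {S : Finset ℕ}
    (hS : ∀ n, n ∈ S ↔ IsG f U n ∧ (n : ℝ) ≤ ((z ^ h : ℕ) : ℝ) ^ J * x ^ 4) :
    a ^ (J - 1) * μ / 48 ≤ S.card := by
  classical
  obtain ⟨A, r, hA, hAd, hr, hAc⟩ := h6 P J h M z (by omega) hh hJh hM
    (fun p hp => ⟨(hP p hp).1, (hP p hp).2.1, (hP p hp).2.2.1⟩)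
  obtain ⟨ξ, hξ, hξQ⟩ := hQ
  have : NeZero M := ⟨hM.ne'⟩
  have hX1 : (1 : ℝ) ≤ ((z ^ h : ℕ) : ℝ) := by exact_mod_cast (by omega : 1 ≤ z ^ h)
  have ha1 : 1 ≤ a := (Real.one_le_rpow hX1 (by positivity)).trans haX
  have hw1 : 1 < w := lt_of_le_of_lt hy hyw
  have hlx : 0 ≤ Real.log x := Real.log_nonneg (by linarith)
  have hμ : 0 ≤ μ := le_trans (by positivity) hbad
  have hA' : ∀ i, ∀ n ∈ A i, 1 ≤ n ∧ n ≤ z ^ h ∧ Squarefree n ∧ n.primeFactors.card = h ∧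
      (∀ p : ℕ, p.Prime → p ∣ n → f p ∣ M ∧ p ≤ z ∧ U < (p : ℝ)) ∧ n ≡ r i [MOD M] := by
    intro i n hn
    obtain ⟨b1, b2, b3, b4, b5, b6⟩ := hA i n hn
    refine ⟨b1, b2, b3, b4, fun p hp hpn => ?_, b6⟩
    have e := b5 (Nat.mem_primeFactors.2 ⟨hp, hpn, by omega⟩)
    exact ⟨(hP p e).2.2.2.1, (hP p e).2.1, (hP p e).2.2.2.2⟩
  have hAa : ∀ i, a ≤ (A i).card := fun i => ha.trans (hAc i)
  rcases sq_one_apply hξ (Nat.Coprime.prod_left fun i _ => hr i : Nat.Coprime (∏ i, r i) M)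
    with hc | hc
  · have hx8' : x ^ 8 ≤ ((z ^ h : ℕ) : ℝ) ^ (J / 2) :=
      hx8.trans (pow_le_pow_right₀ hX1 (Nat.div_le_div_right (Nat.sub_le _ _)))
    have e := core1 h4 h5 h3 h7 h2 hf hU hx hy hyw hwx hM hzx hzw hδ hδ' hX2 hXw hJhX hx8' haX hA' hAd
      hr hAa hc hξQ hbad herr hS
    have e2 : a ^ (J - 1) ≤ a ^ J := pow_le_pow_right₀ ha1 (Nat.sub_le _ _)
    have e3 : a ^ (J - 1) * μ ≤ a ^ J * μ := mul_le_mul_of_nonneg_right e2 hμ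
    linarith
  · obtain ⟨n, rfl⟩ : ∃ n, J = n + 1 := ⟨J - 1, by omega⟩
    have hi : ∃ i, ξ (r i : ZMod M) = -1 := by
      by_contra hno
      push Not at hno
      have e1 : ∀ i, ξ (r i : ZMod M) = 1 := fun i =>
        (sq_one_apply hξ (hr i)).resolve_right (hno i)
      rw [Nat.cast_prod, map_prod, Finset.prod_congr rfl fun i _ => e1 i,
        Finset.prod_const_one] at hc
      norm_num at hc
    obtain ⟨i₀, hi₀⟩ := hi
    have hc' : ξ ((∏ i, r (i₀.succAbove i) : ℕ) : ZMod M) = 1 := by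
      rw [Fin.prod_univ_succAbove _ i₀, Nat.cast_mul, map_mul, hi₀] at hc
      linear_combination (-1 : ℂ) * hc
    have hS' : ∀ m : ℕ, m ∈ S.filter (fun m : ℕ => (m : ℝ) ≤ ((z ^ h : ℕ) : ℝ) ^ n * x ^ 4) ↔
        IsG f U m ∧ (m : ℝ) ≤ ((z ^ h : ℕ) : ℝ) ^ n * x ^ 4 := by
      intro m
      rw [Finset.mem_filter, hS]
      constructor
      · exact fun h => ⟨h.1.1, h.2⟩
      · rintro ⟨b1, b2⟩
        refine ⟨⟨b1, b2.trans ?_⟩, b2⟩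
        refine mul_le_mul_of_nonneg_right ?_ (by positivity)
        exact pow_le_pow_right₀ hX1 (Nat.le_succ n)
    have hJhX' : (n : ℝ) ^ h ≤ ((z ^ h : ℕ) : ℝ) ^ δ := by
      refine le_trans (pow_le_pow_left₀ (Nat.cast_nonneg _) ?_ h) hJhX
      push_cast
      linarith
    have e := core1 (A := fun i => A (i₀.succAbove i)) (r := fun i => r (i₀.succAbove i))
      h4 h5 h3 h7 h2 hf hU hx hy hyw hwx hM hzx hzw hδ hδ' hX2 hXw hJhX' (by simpa using hx8) haX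
      (fun i => hA' _)
      (fun i j hij => hAd _ _ (fun h => hij (Fin.succAbove_right_injective h)))
      (fun i => hr _) (fun i => hAa _) hc' hξQ hbad herr hS'
    have e2 : (((S.filter (fun m : ℕ => (m : ℝ) ≤ ((z ^ h : ℕ) : ℝ) ^ n * x ^ 4)).card : ℕ) : ℝ) ≤
        S.card := by exact_mod_cast Finset.card_filter_le _ _
    simpa using e.trans e2

end Pool.Agent.Helper34.CA2
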